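import Pool.Agent.Helper36.Sq.Goals

set_option autoImplicit false

namespace Pool.Agent.Helper4.Sq

open Pool.Agent.Helper36.Sq

universe u v

/-- Convexity of `t ↦ ‖F + t G‖ - (F + t G) z` on `[0, b]`, with value `≤ 0` at `0`. -/
theorem conv_aux {X : Type u} [NormedAddCommGroup X] [NormedSpace ℝ X] (F G : X →L[ℝ] ℝ) (z : X)
    (hF : ‖F‖ ≤ F z) (b t : ℝ) (hb : 0 < b) (ht : 0 < t) (htb : t ≤ b) :
    b * (‖F + t • G‖ - (F + t • G) z) ≤ t * (‖F + b • G‖ - (F + b • G) z) := by
  have e : b • (F + t • G) = (b - t) • F + t • (F + b • G) := by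
    ext y
    simp only [ContinuousLinearMap.add_apply, ContinuousLinearMap.smul_apply, smul_eq_mul]
    ring
  have n1 : b * ‖F + t • G‖ = ‖b • (F + t • G)‖ := by
    rw [norm_smul, Real.norm_of_nonneg hb.le]
  have n2 : ‖(b - t) • F + t • (F + b • G)‖ ≤ (b - t) * ‖F‖ + t * ‖F + b • G‖ := by
    refine (norm_add_le _ _).trans ?_
    rw [norm_smul, norm_smul, Real.norm_of_nonneg (sub_nonneg.2 htb), Real.norm_of_nonneg ht.le]
  have n3 : (b - t) * ‖F‖ ≤ (b - t) * F z := mul_le_mul_of_nonneg_left hF (sub_nonneg.2 htb)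
  simp only [ContinuousLinearMap.add_apply, ContinuousLinearMap.smul_apply, smul_eq_mul]
  rw [e] at n1
  nlinarith [n1, n2, n3]

theorem bound_aux {X : Type u} [NormedAddCommGroup X] [NormedSpace ℝ X] (F G : X →L[ℝ] ℝ) (z : X)
    (hz : ‖z‖ ≤ 1) (hF : ‖F‖ ≤ F z) (C h a b t : ℝ) (hC : 0 ≤ C) (hh : 0 < h) (ha : h / 2 ≤ a)
    (hb : h / 2 ≤ b) (hV : a * (‖F + b • G‖ - (F + b • G) z) ≤ C * h ^ 2 * (2 * h))
    (ht : 0 < t) (hth : t ≤ h / 2) :
    ‖F + t • G‖ - (F + t • G) z ≤ 8 * C * h * t := by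
  have hb0 : 0 < b := by linarith
  have hc := conv_aux F G z hF b t hb0 ht (hth.trans hb)
  have nn : ∀ L : X →L[ℝ] ℝ, 0 ≤ ‖L‖ - L z := by
    intro L
    have h1 : L z ≤ ‖L‖ * ‖z‖ := (le_abs_self _).trans (L.le_opNorm z)
    have h2 : ‖L‖ * ‖z‖ ≤ ‖L‖ := mul_le_of_le_one_right (norm_nonneg _) hz
    linarith
  have v1 := nn (F + b • G)
  have v2 := nn (F + t • G)
  set V := ‖F + b • G‖ - (F + b • G) z with hVd
  set U := ‖F + t • G‖ - (F + t • G) z with hUd
  -- V ≤ 4 C h^2
  have hV4 : V ≤ 4 * C * h ^ 2 := by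
    have : h / 2 * V ≤ C * h ^ 2 * (2 * h) := (mul_le_mul_of_nonneg_right ha v1).trans hV
    have h3 : h * V ≤ h * (4 * C * h ^ 2) := by nlinarith
    exact le_of_mul_le_mul_left h3 hh
  have h5 : h / 2 * U ≤ t * (4 * C * h ^ 2) :=
    (mul_le_mul_of_nonneg_right hb v2).trans (hc.trans (mul_le_mul_of_nonneg_left hV4 ht.le))
  have h6 : h * U ≤ h * (8 * C * h * t) := by nlinarith
  exact le_of_mul_le_mul_left h6 hh

theorem fin3_cases (i : Fin 3) : i = 0 ∨ i = 1 ∨ i = 2 := by
  fin_cases i <;> simp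

/-- A window with both a letter different from `0` and a letter different from `2`
contains a good index. -/
theorem adj_aux (w : ℕ → Fin 3) (j l : ℕ) (h1 : ∃ k, j ≤ k ∧ k < j + l ∧ w k ≠ 0)
    (h2 : ∃ k, j ≤ k ∧ k < j + l ∧ w k ≠ 2) :
    ∃ n, j ≤ n ∧ n < j + l ∧ (w n = 1 ∨ (w n = 0 ∧ w (n + 1) = 2) ∨ (w n = 2 ∧ w (n + 1) = 0)) := by
  by_contra hcon
  push Not at hcon
  have hne : ∀ n, j ≤ n → n < j + l → w n ≠ 1 := fun n a b => (hcon n a b).1
  have hst : ∀ n, j ≤ n → n + 1 < j + l → w (n + 1) = w n := by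
    intro n a b
    have c := hcon n a (by omega)
    rcases fin3_cases (w n) with h | h | h
    · rcases fin3_cases (w (n + 1)) with h' | h' | h'
      · rw [h, h']
      · exact absurd h' (hne (n + 1) (by omega) b)
      · exact absurd h' (c.2.1 h)
    · exact absurd h (hne n a (by omega))
    · rcases fin3_cases (w (n + 1)) with h' | h' | h'
      · exact absurd h' (c.2.2 h)
      · exact absurd h' (hne (n + 1) (by omega) b)
      · rw [h, h']
  have hall : ∀ i, j + i < j + l → w (j + i) = w j := by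
    intro i
    induction i with
    | zero => intro _; rfl
    | succ i ih =>
      intro hi
      have := hst (j + i) (by omega) (by omega)
      rw [show j + (i + 1) = j + i + 1 by omega, this]
      exact ih (by omega)
  obtain ⟨k1, a1, b1, c1⟩ := h1
  obtain ⟨k2, a2, b2, c2⟩ := h2
  have e1 := hall (k1 - j) (by omega)
  have e2 := hall (k2 - j) (by omega)
  rw [show j + (k1 - j) = k1 by omega] at e1
  rw [show j + (k2 - j) = k2 by omega] at e2
  rw [e1] at c1
  rw [e2] at c2
  rcases fin3_cases (w j) with h | h | h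
  · exact c1 h
  · exact hne j le_rfl (by omega) h
  · exact c2 h

theorem gGeo : GGeo.{u} := by
  intro X _ _ F G z σ C H m w j l hH hC hz hFz hm hσ hV h0 h2 t ht htl
  -- norm of F
  have hFn : ‖F‖ ≤ F z := by
    have z0 : 0 ≤ F z := by
      have := hFz 0 (by simp)
      simpa using this
    refine ContinuousLinearMap.opNorm_le_of_unit_norm z0 ?_
    intro y hy
    rw [Real.norm_eq_abs, abs_le]
    refine ⟨?_, hFz y hy.le⟩
    have := hFz (-y) (by rw [norm_neg]; exact hy.le)
    rw [map_neg] at this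
    linarith
  obtain ⟨n, hjn, hnl, hcase⟩ := adj_aux w j l h0 h2
  have hpos : ∀ k : ℕ, 0 < H / 2 ^ k := fun k => by positivity
  have hhalf : ∀ k : ℕ, H / 2 ^ (k + 1) = H / 2 ^ k / 2 := fun k => by
    rw [pow_succ]; field_simp
  set h := H / 2 ^ n with hh
  have hh0 : 0 < h := hpos n
  have key : |σ - m n| ≤ h / 2 := by
    have s1 := hσ (n + 1)
    have s2 := hσ (n + 2)
    have m1 := hm n
    have m2 := hm (n + 1)
    rw [show n + 1 + 1 = n + 2 from rfl] at m2
    have e1 : H / 2 ^ (n + 1) = h / 2 := hhalf n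
    have e2 : H / 2 ^ (n + 2) = h / 4 := by
      rw [show n + 2 = n + 1 + 1 from rfl, hhalf (n + 1), e1]; ring
    rw [e1] at s1 m2
    rw [e2] at s2
    rw [← hh] at m1
    rcases hcase with hc | ⟨hc, hc'⟩ | ⟨hc, hc'⟩
    · rw [hc] at m1
      have : m (n + 1) = m n := by
        rw [m1]
        simp
      rw [this] at s1
      exact s1
    · rw [hc] at m1
      rw [hc'] at m2
      have m1' : m (n + 1) = m n - h / 2 := by rw [m1]; simp; ring
      have m2' : m (n + 2) = m n - h / 4 := by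
        rw [m2, m1']
        simp
        ring
      rw [m2'] at s2
      rw [abs_le] at s2 ⊢
      constructor <;> linarith [s2.1, s2.2]
    · rw [hc] at m1
      rw [hc'] at m2
      have m1' : m (n + 1) = m n + h / 2 := by
        rw [m1]
        simp
        ring
      have m2' : m (n + 2) = m n + h / 4 := by
        rw [m2, m1']
        simp
        ring
      rw [m2'] at s2
      rw [abs_le] at s2 ⊢
      constructor <;> linarith [s2.1, s2.2]
  rw [abs_le] at key
  have hv := hV n (σ - (m n - h)) (m n + h - σ) rfl rfl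
  rw [← hh] at hv
  have ha : h / 2 ≤ σ - (m n - h) := by linarith [key.1]
  have hb : h / 2 ≤ m n + h - σ := by linarith [key.2]
  -- t ≤ h / 2
  have hpw : (2 : ℝ) ^ (n + 1) ≤ 2 ^ (j + l) := pow_le_pow_right₀ (by norm_num) (by omega)
  have hth : t ≤ h / 2 := by
    refine htl.trans ?_
    rw [← hhalf n]
    exact div_le_div_of_nonneg_left hH.le (by positivity) hpw
  have hhj : h ≤ H / 2 ^ j :=
    div_le_div_of_nonneg_left hH.le (by positivity) (pow_le_pow_right₀ (by norm_num) hjn)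
  have fin1 : 8 * C * h * t ≤ 8 * C * (H / 2 ^ j) * t := by
    have : 0 ≤ 8 * C * t := by positivity
    nlinarith [mul_le_mul_of_nonneg_left hhj this]
  refine ⟨(bound_aux F G z hz hFn C h _ _ t hC hh0 ha hb hv.1 ht hth).trans fin1, ?_⟩
  have hv2 := hv.2
  rw [show F - (σ - (m n - h)) • G = F + (σ - (m n - h)) • (-G) by
    rw [smul_neg, sub_eq_add_neg]] at hv2
  have := bound_aux F (-G) z hz hFn C h _ _ t hC hh0 hb ha hv2 ht hth
  rw [show F + t • (-G) = F - t • G by rw [smul_neg, sub_eq_add_neg]] at this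
  exact this.trans fin1

end Pool.Agent.Helper4.Sq
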